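import Mathlib
import Pool.Agent.J4H38.M.Ge

/-!
# Tate–Shafarevich groups of the cubic twists of ONE given abelian variety
# `Res_{K/ℚ} (E_{m_1} × … × E_{m_r})` over `ℚ`, of arbitrary dimension

`K = ℚ(√-3)` is the field of the third roots of unity and `E_D : y² + D y = x³`.  Let `m_1, ..., m_r` be
ARBITRARY FIXED elements of `𝓞 K` prime to `3` (normalised by the sign, which is a cube: congruent to
third roots of unity modulo `3`), and `n_1, ..., n_r` natural numbers prime to `3`.  For `D ∈ 𝓞 K` let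

  `A_D = Res_{K/ℚ} (E_{m_1 D^{n_1}} × … × E_{m_r D^{n_r}})`,

an abelian variety over `ℚ` of dimension `2 r` with complex multiplication.  The `A_D` are the twists of the
abelian variety `A_1 = Res_{K/ℚ} (E_{m_1} × … × E_{m_r})` by the cubic extensions `K(∛D)` of `K` and the
automorphism `(ζ^{n_1}, ..., ζ^{n_r})` of order `3`; only ONE parameter varies.  We have
`A_D(ℚ) = ⨁ E_{m_i D^{n_i}}(K)`, `Ш(A_D / ℚ) = ⨁ Ш(E_{m_i D^{n_i}} / K)` and
`L(A_D / ℚ, s) = ∏ L(E_{m_i D^{n_i}} / K, s)`.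

The family: the squarefree `D`, congruent to third roots of unity modulo `3`, such that no `m_i D^{n_i}`
is a unit times a cube or in the exceptional class (`1` modulo `3`, with norm `1` modulo `9`; each `i`
excludes one of the nine classes of `D`).

* For all `D` in the family `L(A_D / ℚ, s)` is entire; if the groups `E_{m_i D^{n_i}}(K)` are finite and
  the `Ш(E_{m_i D^{n_i}} / K)[3^∞]` are trivial, that is if `A_D(ℚ)` is finite and
  `Ш(A_D / ℚ)[3^∞] = 0`, then `L(A_D / ℚ, 1) ≠ 0`.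
* EXACT PROPORTIONS.  Call `i` and `i'` equivalent if `m_i D^{n_i} m_{i'} D^{n_{i'}}` or
  `m_i D^{n_i} (m_{i'} D^{n_{i'}})²` is identically (in `D`) a cube.  For every set `𝒮` of indices the
  proportion of the `D` in the family for which `E_{m_i D^{n_i}}(K)` is finite and
  `Ш(E_{m_i D^{n_i}} / K)[3^∞] = 0` for all `i ∈ 𝒮` is `p ^ l`, where `l` is the number of the equivalence
  classes of `𝒮` and `p = ∏_{i ≥ 0} (1 - 3^{-(2 i + 1)}) = 0.6390...`; the same holds under every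
  condition on the class of `D` modulo `3` and of its norm modulo `9`.  In particular the `E_{m_i D}`,
  `1 ≤ i ≤ r`, with `m_i` pairwise inequivalent, are asymptotically independent.
* If there are at most `8` classes then the family is not empty, and whenever it is not empty all of this
  happens for a positive proportion of ALL `D ∈ 𝓞 K`, ordered by the norm.

Example: let `F = K(∛d_1, ..., ∛d_N)` be a FIXED multicubic extension of `K`, `d_k = 1` modulo `9`.  The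
variety `Res_{F/ℚ} E_{m D}` (of dimension `2 · 3^N`) is isogenous to `Res_{K/ℚ} ∏_t E_{m d^t D}`, so that for
a positive proportion of the `D` the group `E_{m D}(F)` is finite and `Ш(E_{m D} / F)` is finite.

Relation to the conjecture (not formalized): by the theorem of Rubin (1987) for elliptic curves over `K`
with complex multiplication by `K`, `L(E_D / K, 1) ≠ 0` implies that `Ш(E_D / K)` is finite.  So for these
`D` the group `Ш(A_D / ℚ)` is finite, of order prime to `3`.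

In `WeilRestrictionsOfCubicTwists` the curves are `E_{a^v}` with independent parameters `a_k` and without
fixed factors, and the vectors `v` are pairwise independent; here the matrices of the cubic residue
symbols of all the `E_{m_i D^{n_i}}` are built from the SAME primes with the same weights and differ only
by the symbols at the fixed primes and by the diagonal (`Pool/Agent/J4H38/M`).
-/

set_option autoImplicit false

namespace Pool.Agent.Results.MP_a43263_nt.CubicTwistsOfAGivenVariety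

open NumberField IsDedekindDomain WeierstrassCurve
open Pool.Agent.TH841.NF.D (Sha)
open scoped Classical

variable {K : Type} [Field K] [NumberField K] {r : ℕ}

/-- The curve `E_D : y² + D y = x³`. -/
def curve (D : K) : WeierstrassCurve K := ⟨0, 0, D, 0, 0⟩

/-- `L` is entire and equal to the `L`-function of `∏_i E_{δ_i}` over `K`, which is that of
`Res_{K/ℚ} ∏_i E_{δ_i}` over `ℚ`, for `Re s > 3 / 2`.  `A w i` is the multiset of the eigenvalues of the
Frobenius at the place `w` on the invariants of inertia of `H^1(E_{δ_i})`.  At the places `w` not dividing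
`3`: if `δ_i = R z³` with `R` prime to `w` (then `E_{δ_i}` is isomorphic to `E_R`, which has good
reduction) then `A w i = {β, conj β}`, where `β conj β = N(w)` and `y² + R y = x³` has
`N(w) - (β + conj β)` affine points over the residue field; if there are no such `R` and `z` then `A w i`
is empty.  At the places dividing `3` all the `A w i` are empty. -/
def IsLFunction (δ : Fin r → 𝓞 K) (L : ℂ → ℂ) : Prop :=
  Differentiable ℂ L ∧
  ∃ A : HeightOneSpectrum (𝓞 K) → Fin r → Multiset ℂ,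
    (∀ w i, (3 : 𝓞 K) ∉ w.asIdeal → ∀ R z : 𝓞 K, R ∉ w.asIdeal → δ i = R * z ^ 3 →
      ∃ β : ℂ, β * (starRingEnd ℂ) β = Ideal.absNorm w.asIdeal ∧
        (Nat.card {P : (𝓞 K ⧸ w.asIdeal) × (𝓞 K ⧸ w.asIdeal) //
          P.2 ^ 2 + Ideal.Quotient.mk w.asIdeal R * P.2 = P.1 ^ 3} : ℂ) =
            Ideal.absNorm w.asIdeal - (β + (starRingEnd ℂ) β) ∧
        A w i = {β, (starRingEnd ℂ) β}) ∧
    (∀ w i, ((3 : 𝓞 K) ∈ w.asIdeal ∨
      ¬ ∃ R z : 𝓞 K, R ∉ w.asIdeal ∧ δ i = R * z ^ 3) → A w i = 0) ∧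
    ∀ s : ℂ, 3 / 2 < s.re →
      HasProd (fun w : HeightOneSpectrum (𝓞 K) => ∏ i, ((A w i).map
          (fun α => (1 - α * (Ideal.absNorm w.asIdeal : ℂ) ^ (-s))⁻¹)).prod) (L s)

/-- The exceptional class: `D` is `1` modulo `3` and its norm is `1` modulo `9`. -/
def Exceptional (D : 𝓞 K) : Prop := (3 : 𝓞 K) ∣ D - 1 ∧ (9 : ℤ) ∣ Algebra.norm ℤ D - 1

/-- The parameters `m i * D ^ n i` of the curves. -/
def twist (m : Fin r → 𝓞 K) (n : Fin r → ℕ) (D : 𝓞 K) (i : Fin r) : 𝓞 K := m i * D ^ n i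

/-- `(m i * D ^ n i) * (m i' * D ^ n i') ^ s` is identically a cube, `s = 1` or `s = 2`. -/
def Equivalent (m : Fin r → 𝓞 K) (n : Fin r → ℕ) (i i' : Fin r) : Prop :=
  ∃ s : ℕ, (s = 1 ∨ s = 2) ∧ 3 ∣ n i + s * n i' ∧ ∃ z : 𝓞 K, m i * m i' ^ s = z ^ 3

/-- `D` is squarefree and congruent to a third root of unity modulo `3`, and no `m i * D ^ n i` is
exceptional or a unit times a cube. -/
def InFamily (m : Fin r → 𝓞 K) (n : Fin r → ℕ) (D : 𝓞 K) : Prop :=
  (Squarefree D ∧ ∃ ω : 𝓞 K, ω ^ 3 = 1 ∧ (3 : 𝓞 K) ∣ D - ω) ∧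
  ∀ i, ¬ Exceptional (twist m n D i) ∧ ¬ ∃ u z : 𝓞 K, IsUnit u ∧ twist m n D i = u * z ^ 3

/-- `P D` depends only on `D` modulo `3` and on its norm modulo `9`. -/
def IsClassCondition (P : 𝓞 K → Prop) : Prop :=
  ∀ D D' : 𝓞 K, (3 : 𝓞 K) ∣ D - D' ∧ (9 : ℤ) ∣ Algebra.norm ℤ D - Algebra.norm ℤ D' → P D → P D'

/-- `E_D(K)` is finite and the `3`-primary part of `Ш(E_D / K)` is trivial. -/
def FiniteAndTrivial (D : 𝓞 K) : Prop :=
  Finite (curve (D : K)).toAffine.Point ∧ ∀ (n : ℕ) (x : Sha (curve (D : K))), 3 ^ n • x = 0 → x = 0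

/-- For `A = Res_{K/ℚ} ∏_i E_{δ_i}`: the group `A(ℚ) = ⨁ E_{δ_i}(K)` is finite, the `3`-primary part of
`Ш(A / ℚ) = ⨁ Ш(E_{δ_i} / K)` is trivial, and `L(A / ℚ, s)` is entire and not zero at `s = 1`. -/
def Good (δ : Fin r → 𝓞 K) : Prop :=
  (∀ i, FiniteAndTrivial (δ i)) ∧ ∃ L : ℂ → ℂ, IsLFunction δ L ∧ L 1 ≠ 0

theorem result (K : Type) [Field K] [NumberField K] [IsCyclotomicExtension {3} ℚ K]
    (r : ℕ) (m : Fin r → 𝓞 K) (hm : ∀ i, ∃ ω : 𝓞 K, ω ^ 3 = 1 ∧ (3 : 𝓞 K) ∣ m i - ω)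
    (n : Fin r → ℕ) (hn : ∀ i, ¬ 3 ∣ n i) :
    (∀ 𝒯 : Finset (Fin r), 𝒯.card ≤ 8 → (∀ i, ∃ i' ∈ 𝒯, Equivalent m n i i') →
      ∃ D, InFamily m n D) ∧
    (∀ P : 𝓞 K → Prop, IsClassCondition P → (∃ D, InFamily m n D ∧ P D) →
      (∃ C : ℝ, 0 < C ∧ ∃ X₀ : ℕ, ∀ X : ℕ, X₀ ≤ X →
        C * ({D : 𝓞 K | Algebra.norm ℤ D ≤ X}.ncard : ℝ) ≤
          ({D : 𝓞 K | Algebra.norm ℤ D ≤ X ∧ InFamily m n D ∧ P D ∧
            Good (twist m n D)}.ncard : ℝ)) ∧
      ∀ 𝒮 𝒯 : Finset (Fin r), 𝒯 ⊆ 𝒮 → (∀ i ∈ 𝒯, ∀ i' ∈ 𝒯, i ≠ i' → ¬ Equivalent m n i i') →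
        (∀ i ∈ 𝒮, ∃ i' ∈ 𝒯, Equivalent m n i i') →
        Filter.Tendsto (fun X : ℕ =>
          ({D : 𝓞 K | Algebra.norm ℤ D ≤ X ∧ InFamily m n D ∧ P D ∧
            ∀ i ∈ 𝒮, FiniteAndTrivial (twist m n D i)}.ncard : ℝ) /
          ({D : 𝓞 K | Algebra.norm ℤ D ≤ X ∧ InFamily m n D ∧ P D}.ncard : ℝ))
          Filter.atTop (nhds ((∏' i : ℕ, (1 - (1 / 3 : ℝ) ^ (2 * i + 1))) ^ 𝒯.card))) ∧
    (0.639 : ℝ) < ∏' i : ℕ, (1 - (1 / 3 : ℝ) ^ (2 * i + 1)) ∧
    ∀ D : 𝓞 K, InFamily m n D → (∃ L : ℂ → ℂ, IsLFunction (twist m n D) L) ∧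
      ((∀ i, FiniteAndTrivial (twist m n D i)) → Good (twist m n D)) := by
  obtain ⟨h1, h2, h3, h4, h5⟩ := Pool.Agent.J4H38.M.Ge.finalX K r m hm n hn
  have h6 : ∀ D : 𝓞 K, InFamily m n D → (∃ L : ℂ → ℂ, IsLFunction (twist m n D) L) ∧
      ((∀ i, FiniteAndTrivial (twist m n D i)) → Good (twist m n D)) := by
    intro D hD
    choose L hL hL' using h4 D hD
    have h7 : IsLFunction (twist m n D) fun s => ∏ i, L i s := Pool.Agent.J4H38.M.Ge.lx hL
    exact ⟨⟨_, h7⟩, fun ht => ⟨ht, _, h7, Finset.prod_ne_zero_iff.2 fun i _ => hL' i (ht i)⟩⟩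
  refine ⟨h3, fun P hP hne => ⟨?_, fun 𝒮 𝒯 k1 k2 k3 => h1 𝒮 𝒯 k1 k2 k3 P hP hne⟩,
    Pool.Agent.N883.FF.hc9.2.2.2.1, h6⟩
  obtain ⟨C, hC, X₀, h⟩ := h2 P hP hne
  refine ⟨C, hC, max X₀ 1, fun X hX => (h X ((le_max_left _ _).trans hX)).trans ?_⟩
  refine Nat.cast_le.2 (Set.ncard_le_ncard ?_ ((h5 X ((le_max_right _ _).trans hX)).subset
    fun D hD => hD.1))
  rintro D ⟨k1, k2, k3, k4⟩
  exact ⟨k1, k2, k3, (h6 D k2).2 k4⟩

end Pool.Agent.Results.MP_a43263_nt.CubicTwistsOfAGivenVariety
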