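import Pool.Agent.J4H37.Tr.Fin

/-!
# The 2-primary part of `Ш` of all the twists `J ⊗ ρ` by integral representations, for a positive
# proportion of all odd hyperelliptic Jacobians `J` over a number field

Let `F` be a number field and `g ≥ 1`. Every curve of genus `g` over `F` with a map of degree two to the
projective line and a rational Weierstrass point has an equation `y ^ 2 = f(x)` with `f` monic of degree
`2 g + 1` over the integers of `F`, without term of degree `2 g`; we order the `f` (those with a minimal
equation) by the height: all conjugates of the coefficient of `x ^ j` are at most `B ^ (2 g + 1 - j)` in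
absolute value. For `g = 1` these are the elliptic curves over `F`.

For `f` and a natural number `N` let `E(f, N)` be the class of all the finite Galois extensions `M` of `F` of
2-power degree in which the primes of `F` dividing `N` split completely and in which only primes of `F` are
ramified modulo which `f` is irreducible. There is no condition at the infinite places.

Theorem. Let `M₀` be a number field containing `F` in which all the primes of `F` over `2` split completely,
and let `T` be a natural number. There are a natural number `N`, which is divisible by no odd prime up to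
`T` and all whose prime divisors split completely in `M₀`, and a constant `c > 0` such that for all large `B`
at least `c` times the number of all the curves of genus `g` of height at most `B` have the following
property. `f` is irreducible over `F`, modulo all the primes of `F` over the rational primes up to `T` and
modulo all the primes which are ramified in `M₀`, it has exactly one zero at every real place of `F`, and
for ALL `M` in `E(f, N)`:

* multiplication by two is bijective on `J(M)`, `J` the Jacobian of the curve, and all the classes of 2-power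
  order in the Tate-Shafarevich group of `J` over `M` are zero, even without conditions at the infinite
  places;
* for all `r` and ALL homomorphisms `ρ` from the Galois group of `M` over `F` to `GL_r(ℤ)` the same holds
  for the abelian variety `J ⊗ ρ` over `F` of dimension `r g`, the twist of `J ^ r` by `ρ`.

For `F = ℚ` the groups `Ш(J ⊗ ρ)` are groups as in Q1: by the theorem of Mordell and Weil the group
`(J ⊗ ρ)(ℚ)` is finite of odd order, and `Ш(J ⊗ ρ)[2^∞] = 0`. The abelian varieties `J ⊗ ρ` comprise the
restrictions of scalars of `J` from all the subfields of `M`, the twists of `J` by the quadratic characters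
of `M` and the parts which belong to the irreducible representations of the Galois group, so that their
simple factors have unbounded dimension, for one `J` already. If `M₀` is a Galois extension of `F` of 2-power
degree, then `M₀` is in `E(f, N)` for all these `f`. The class `E(f, N)` is closed under composita and
infinite for all these `f` if `T ≥ 2`: the Frobenius automorphism at a prime modulo which `f` is irreducible
permutes the zeros of `f` in one cycle, hence by the theorem of Chebotarev `f` is irreducible modulo `𝔭` for a
set of primes `𝔭` of positive density.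

Proof. The starting point is the project PF (helper783) on the case `M = F` with its count by lattices with
a self-adjoint operator, and the project TW (helper874), the analogue over function fields for the first
of the two statements. The twists of the members of the family by the products of the primes in a subset
of `S` (a finite set of rational primes, all of which split completely in `M₀`; `N` is twice their product)
have a strict Selmer group which is zero, for one of the subsets; here strict means that the local
conditions at the primes which divide the twist are those over all extensions. Real places: `f` has only one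
real zero, and then the norm condition forces the sign, also over `M`. The local conditions over `M` define
a group of elements of `M(θ)`, `f(θ) = 0`, modulo squares, which is stable under `Gal(M / F)` and whose
invariant part is zero: hence it is zero, `Gal(M / F)` being a 2-group. The passage to the Jacobian is the
project JB (helper352). For the twists: `H¹(Gal(M / F), (J ⊗ ρ)(M)) = 0` because `(J ⊗ ρ)(M) = J(M) ^ r` is
uniquely divisible by two, and a locally trivial class of `J ⊗ ρ` over `F` is locally trivial over `M`, where
`J ⊗ ρ` is `J ^ r`. The cohomology is that of continuous cocycles on the absolute Galois groups.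

Everything is in `Pool.Agent.J4H37` (helper37).
-/

set_option autoImplicit false
set_option linter.all false

namespace Pool.Agent.Results.MP_a43263_nt.UniformIntegralTwists

open Polynomial Filter IsDedekindDomain NumberField
open Pool.Agent.N874.Jac (Gal)
open Pool.Agent.J4H37 (Twist.Rep Twist.FactorsThrough)
open scoped Classical

section defs

variable (F : Type) [Field F] [NumberField F]

/-- `y ^ 2 = f(x)` is a minimal equation of a curve of genus `g` with a rational Weierstrass point
over the number field `F`, of height at most `B`. -/
structure IsCurve (g B : ℕ) (f : (𝓞 F)[X]) : Prop where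
  monic : f.Monic
  degree : f.natDegree = 2 * g + 1
  trace : f.coeff (2 * g) = 0
  height : ∀ j ≤ 2 * g, ∀ σ : F →+* ℂ, ‖σ (f.coeff j : F)‖ ≤ (B : ℝ) ^ (2 * g + 1 - j)
  smooth : (f.map (algebraMap (𝓞 F) F)).Separable
  minimal : ∀ 𝔭 : Ideal (𝓞 F), 𝔭.IsPrime → 𝔭 ≠ ⊥ →
    ¬ ∀ j ≤ 2 * g, f.coeff j ∈ 𝔭 ^ (2 * (2 * g + 1 - j))

/-- The curves of genus `g` over `F` of height at most `B`. -/
def Curves (g B : ℕ) : Set (𝓞 F)[X] := {f | IsCurve F g B f}

/-- The prime `w` of `M` is unramified over `F`: it contains an integer of `F` which is not in
its square. -/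
def Unramified {M : Type} [Field M] [NumberField M] [Algebra F M] (w : HeightOneSpectrum (𝓞 M)) :
    Prop :=
  ∃ a : 𝓞 F, algebraMap (𝓞 F) (𝓞 M) a ∈ w.asIdeal ∧ algebraMap (𝓞 F) (𝓞 M) a ∉ w.asIdeal ^ 2

/-- The prime `w` of `M` is of degree one over `F`: every integer of `M` is congruent to an integer of
`F` modulo `w`. -/
def DegreeOne {M : Type} [Field M] [NumberField M] [Algebra F M] (w : HeightOneSpectrum (𝓞 M)) :
    Prop :=
  ∀ y : 𝓞 M, ∃ a : 𝓞 F, y - algebraMap (𝓞 F) (𝓞 M) a ∈ w.asIdeal

/-- The primes of `F` which divide the natural number `N` split completely in `M`. -/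
def SplitAt (M : Type) [Field M] [NumberField M] [Algebra F M] (N : ℕ) : Prop :=
  ∀ w : HeightOneSpectrum (𝓞 M), (N : 𝓞 M) ∈ w.asIdeal → Unramified F w ∧ DegreeOne F w

variable {F}

/-- `f` is irreducible modulo the prime `v` of `F`. -/
def IrreducibleMod (f : (𝓞 F)[X]) (v : HeightOneSpectrum (𝓞 F)) : Prop :=
  Irreducible (f.map (Ideal.Quotient.mk v.asIdeal))

/-- The primes of `F` which divide `N` split completely in `M`, and `f` is irreducible modulo all the
primes of `F` which are ramified in `M`. -/
structure Admissible (N : ℕ) (f : (𝓞 F)[X]) (M : Type) [Field M] [NumberField M] [Algebra F M] :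
    Prop where
  split : SplitAt F M N
  inert : ∀ w : HeightOneSpectrum (𝓞 M), ¬ Unramified F w → IrreducibleMod f (w.under (𝓞 F))

/-- `f` as a polynomial over `F`. -/
noncomputable abbrev poly (f : (𝓞 F)[X]) : F[X] := f.map (algebraMap (𝓞 F) F)

/-- `f` has exactly one zero at every real place of `F`. -/
def OneRealZero (f : (𝓞 F)[X]) : Prop := ∀ σ : F →+* ℝ, ∃! x : ℝ, ((poly f).map σ).eval x = 0

/-- Let `J` be the Jacobian of `y ^ 2 = f(x)` over `M`. Multiplication by two is bijective on `J(M)`, and
every class of 2-power order in `H ^ 1 (M, J)` which is zero over the completions of `M` at all finite places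
is zero. -/
def NoTwoPartOver (f : (𝓞 F)[X]) (M : Type) [Field M] [NumberField M] [Algebra F M] : Prop :=
  Pool.Agent.N874.Jac.UniquelyTwoDivisible ((poly f).map (algebraMap F M)) ∧
    Pool.Agent.N874.Jac.ShaTwoTrivial ((poly f).map (algebraMap F M)) (𝓞 M)

/-- Let `J` be the Jacobian of `y ^ 2 = f(x)` over `F` and `A = J ⊗ ρ` the twist of `J ^ r` by `ρ`.
Multiplication by two is bijective on `A(F)`, and every class of 2-power order in `H ^ 1 (F, A)` which is
zero over the completions of `F` at all finite places is zero. -/
def NoTwoPartTwist (f : (𝓞 F)[X]) {r : ℕ} (ρ : Twist.Rep F r) : Prop :=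
  Pool.Agent.J4H37.Twist.UniquelyTwoDivisible (poly f) ρ ∧
    Pool.Agent.J4H37.Twist.ShaTwoTrivial (poly f) ρ (𝓞 F)

/-- The Jacobian `J` of `y ^ 2 = f(x)` has no 2-part over `M`, and for all integral representations `ρ` of
the Galois group of `M` over `F` the twist `J ⊗ ρ` has no 2-part over `F`. -/
def NoTwoPart (f : (𝓞 F)[X]) (M : Type) [Field M] [NumberField M] [Algebra F M] : Prop :=
  NoTwoPartOver f M ∧
    ∀ (r : ℕ) (ρ : Twist.Rep F r), Twist.FactorsThrough ρ M → NoTwoPartTwist f ρ

/-- This holds for all the Galois extensions `M` of `F` of 2-power degree in which the primes dividing `N`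
split completely and in which only primes are ramified modulo which `f` is irreducible. -/
def NoTwoPartUniformly (N : ℕ) (f : (𝓞 F)[X]) : Prop :=
  ∀ (M : Type) [Field M] [NumberField M] [Algebra F M] [IsGalois F M] (n : ℕ),
    Module.finrank F M = 2 ^ n → Admissible N f M → NoTwoPart f M

/-- The curves of genus `g` and height at most `B` with the property of the theorem. -/
def UniformlyTrivial (M₀ : Type) [Field M₀] [NumberField M₀] [Algebra F M₀] (T N g B : ℕ) :
    Set (𝓞 F)[X] :=
  {f ∈ Curves F g B | Irreducible (poly f) ∧ OneRealZero f ∧ Admissible N f M₀ ∧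
    (∀ (v : HeightOneSpectrum (𝓞 F)) (p : ℕ), p.Prime → p ≤ T → (p : 𝓞 F) ∈ v.asIdeal →
      IrreducibleMod f v) ∧
    NoTwoPartUniformly N f}

end defs

/-- Let `F` be a number field, `g ≥ 1`, `T` a natural number and `M₀` a finite extension of `F` in which
the primes of `F` over `2` split completely. There are `N > 0`, not divisible by an odd prime up to `T`,
all whose prime divisors split completely in `M₀`, and `c > 0` such that for all large `B` at least
`c` times the number of all the curves of genus `g` over `F` of height at most `B` with a rational Weierstrass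
point have the following property. The polynomial `f` is irreducible over `F`, modulo the primes over the
rational primes up to `T` and modulo the primes which are ramified in `M₀`, has exactly one zero at every
real place, and for ALL Galois extensions `M` of `F` of 2-power degree in which the primes dividing `N`
split completely and in which only primes are ramified modulo which `f` is irreducible: multiplication by two
is bijective on `J(M)` and the 2-primary part of the Tate-Shafarevich group of `J` over `M` is zero, and the
same holds for all the twists `J ⊗ ρ` over `F` of the powers of `J` by integral representations of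
`Gal(M / F)`. -/
theorem result (F : Type) [Field F] [NumberField F] (g : ℕ) (hg : 1 ≤ g) (M₀ : Type) [Field M₀]
    [NumberField M₀] [Algebra F M₀] (h2 : SplitAt F M₀ 2) (T : ℕ) :
    (∀ B : ℕ, (Curves F g B).Finite) ∧
    ∃ N : ℕ, 0 < N ∧ (∀ p : ℕ, p.Prime → p ∣ N → p = 2 ∨ T < p) ∧ SplitAt F M₀ N ∧
      ∃ c : ℝ, 0 < c ∧ ∀ᶠ B : ℕ in atTop, 0 < (Curves F g B).ncard ∧
        c * ((Curves F g B).ncard : ℝ) ≤ ((UniformlyTrivial M₀ T N g B : Set (𝓞 F)[X]).ncard : ℝ) := by
  have hsub : ∀ B, Curves F g B ⊆ {f : (𝓞 F)[X] | Pool.Agent.N783.PF.Ht g B f} :=
    fun B f hf => ⟨hf.monic, hf.degree, hf.trace, hf.height⟩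
  obtain ⟨N, hN, hNT, hsp, c, hc, B₀, hB₀⟩ := Pool.Agent.J4H37.U.main2 g F hg M₀
    (fun w hw => h2 w (by exact_mod_cast hw)) T
  have hmono : ∀ B B' : ℕ, B ≤ B' → Curves F g B ⊆ Curves F g B' := by
    intro B B' hBB f hf
    refine ⟨hf.monic, hf.degree, hf.trace, fun j hj σ => (hf.height j hj σ).trans ?_, hf.smooth,
      hf.minimal⟩
    gcongr
  have hfin : ∀ B, (Curves F g B).Finite := fun B =>
    ((hB₀ (max B B₀) (le_max_right _ _)).1.subset (hsub _)).subset (hmono B _ (le_max_left _ _))
  refine ⟨hfin, N, hN, hNT, hsp, c, hc, ?_⟩
  filter_upwards [eventually_ge_atTop B₀] with B hB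
  obtain ⟨hHt, hle⟩ := hB₀ B hB
  have hsub2 : {f : (𝓞 F)[X] | Pool.Agent.N783.PF.Ht g B f ∧
      Irreducible (Pool.Agent.N783.PF.fF f) ∧ Pool.Agent.N783.PF.Min g f ∧
      Pool.Agent.J4H37.U.Real1 f ∧ Pool.Agent.J4H37.U.MOk N f M₀ ∧
      (∀ (v : HeightOneSpectrum (𝓞 F)) (p : ℕ), p.Prime → p ≤ T → (p : 𝓞 F) ∈ v.asIdeal →
          Irreducible (Pool.Agent.N783.PF.rd v.asIdeal f)) ∧ Pool.Agent.J4H37.U.Uni N f} ⊆
      UniformlyTrivial M₀ T N g B := by
    rintro f ⟨a1, a2, a3, a4, a5, a6, a7⟩
    refine ⟨⟨a1.mon, a1.deg, a1.tr, a1.ht, a2.separable, a3⟩, a2, ?_, ⟨a5.spl, a5.ram⟩, a6, ?_⟩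
    · intro σ
      obtain ⟨x, hx, hu⟩ := a4 σ
      exact ⟨x, hx, hu⟩
    · intro M _ _ _ _ n hn hM
      have hmon : (poly f).Monic := a1.mon.map _
      have hodd : Odd (poly f).natDegree := by
        rw [a1.mon.natDegree_map, a1.deg]
        exact odd_two_mul_add_one g
      have hsel := a7 M n hn ⟨hM.split, hM.inert⟩
      rw [Pool.Agent.J4H37.U.fF_fM] at hsel
      refine ⟨Pool.Agent.J4H37.Tr.over_m hmon a2 hodd M hn hsel, fun r ρ hρ => ?_⟩
      obtain ⟨ι, hι⟩ := hρ
      exact Pool.Agent.J4H37.Tr.twist hmon a2 hodd M hn hsel ρ ι hι
  have hfin2 : (UniformlyTrivial M₀ T N g B : Set (𝓞 F)[X]).Finite :=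
    (hfin B).subset fun f hf => hf.1
  have h1 := Set.ncard_le_ncard hsub2 hfin2
  have h2 : c * ({f : (𝓞 F)[X] | Pool.Agent.N783.PF.Ht g B f}.ncard : ℝ) ≤
      ((UniformlyTrivial M₀ T N g B : Set (𝓞 F)[X]).ncard : ℝ) := hle.trans (by exact_mod_cast h1)
  have hne : 0 < {f : (𝓞 F)[X] | Pool.Agent.N783.PF.Ht g B f}.ncard := by
    rw [Set.ncard_pos hHt]
    refine ⟨X ^ (2 * g + 1), monic_X_pow _, natDegree_X_pow _, ?_, fun j hj σ => ?_⟩
    · rw [coeff_X_pow, if_neg (by omega)]
    · have e : ((0 : 𝓞 F) : F) = 0 := by simp
      rw [coeff_X_pow, if_neg (by omega), e, map_zero, norm_zero]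
      positivity
  have h3 : 0 < ((UniformlyTrivial M₀ T N g B : Set (𝓞 F)[X]).ncard : ℝ) := by
    refine lt_of_lt_of_le ?_ h2
    exact mul_pos hc (by exact_mod_cast hne)
  refine ⟨?_, ?_⟩
  · have h4 := Set.ncard_le_ncard (s := (UniformlyTrivial M₀ T N g B : Set (𝓞 F)[X]))
      (t := Curves F g B) (fun f hf => hf.1) (hfin B)
    have h5 : 0 < (UniformlyTrivial M₀ T N g B : Set (𝓞 F)[X]).ncard := by exact_mod_cast h3
    omega
  · refine le_trans ?_ h2
    have h4 := Set.ncard_le_ncard (hsub B) hHt
    exact mul_le_mul_of_nonneg_left (by exact_mod_cast h4) hc.le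

end Pool.Agent.Results.MP_a43263_nt.UniformIntegralTwists
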