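import Pool.Agent.J4H37.V.Parts2

/-!
# The order of the 2-primary part of `Ш`, finite and not zero, uniformly in towers, for a positive
# proportion of all odd hyperelliptic Jacobians

Let `g ≥ 1`. Every curve of genus `g` over `ℚ` with a map of degree two to the projective line and a rational
Weierstrass point has an equation `y ^ 2 = f(x)` with `f` monic of degree `2 g + 1` over `ℤ` without term of
degree `2 g`; we order the `f` (those with a minimal equation) by the height: the coefficient of `x ^ j` is at
most `B ^ (2 g + 1 - j)` in absolute value. For `g = 1` these are the elliptic curves over `ℚ`. `J` is the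
Jacobian.

For `f` and a natural number `N` let `E(f, N)` be the class of all the finite totally real Galois extensions
`M` of `ℚ` of 2-power degree in which the primes dividing `N` split completely and in which only primes are
ramified modulo which `f` is irreducible.

Theorem. Let `M₀` be a number field in which 2 splits completely, and let `T` be a natural number. There are a
natural number `N > 0`, which is divisible by no odd prime up to `T` and all whose prime divisors split
completely in `M₀`, and a constant `c > 0` such that for all large `B` at least `c` times the number of all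
the curves of genus `g` of height at most `B` have the following property. `f` is irreducible over `ℚ`, modulo
all the primes up to `T` and modulo all the primes which are ramified in `M₀`, it has `2 g + 1` real zeros,
and there is a negative squarefree divisor `d` of `N` such that for ALL `M` in `E(f, N)`:

* for all `r` and all homomorphisms `ρ` from the Galois group of `M` over `ℚ` to `GL_r(ℤ)` the abelian
  variety `A = J ⊗ ρ` over `ℚ` of dimension `r g`, the twist of `J ^ r` by `ρ`, has no 2-part: multiplication
  by two is bijective on `A(ℚ)`, and the 2-primary part of `Ш(A)` is zero; the same holds for `J` over `M`;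
* for all `r` and all homomorphisms `ρ` from the Galois group of `M(√d)` over `ℚ` to `GL_r(ℤ)` multiplication
  by two is bijective on `A(ℚ)`, `A = J ⊗ ρ`, and the 2-primary part of `Ш(A)` is killed by two; hence `A(ℚ)`
  is finite of odd order and the 2-primary part of `Ш(A)` is finite, by the theorem of Mordell and Weil;
* for the restriction of scalars `A` of `J` from `M(√d)` to `M` the 2-primary part of `Ш(A / M)` is finite,
  killed by two, and its order is at least `2 ^ ((2 + k) [M : ℚ])` and at most
  `2 ^ ((3 g - 1 + k) [M : ℚ])`, where `k` is the number of the primes which divide `d`. FOR ELLIPTIC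
  CURVES (`g = 1`) THE TWO BOUNDS ARE EQUAL: the 2-primary part of `Ш` is isomorphic to
  `(ℤ / 2) ^ ((2 + k) [M : ℚ])`. In other words, the restriction of scalars of `J` from `M(√d)` to `ℚ` is an
  abelian variety over `ℚ` of dimension `2 g [M : ℚ]` whose Tate-Shafarevich group has a finite 2-primary
  part of this order, for all `M` in `E(f, N)`. (The restriction of scalars of `J` from `ℚ(√d)` to `ℚ` is
  isogenous to the product of `J` and its twist by `d`; for both the 2-primary part of `Ш` is zero over
  all `M`.)

Here the Tate-Shafarevich groups are those with the conditions at all places, the real ones included. `E(f, N)`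
is closed under composita, it contains `M₀` if `M₀` is a totally real Galois extension of `ℚ` of 2-power
degree, and its members are of unbounded degree if `T ≥ 2`: `f` is irreducible modulo a set of primes of
positive density by the theorem of Chebotarev.

Proof. The family: `f` is close to the polynomial with the zeros `0, ± b, ..., ± g b` (hence `2 g + 1` real
zeros), congruent modulo a number to a fixed polynomial and of squarefree discriminant otherwise; the twists of
`f` by a product `D` of primes in a set `S` and by `-D'`, `D'` a product of primes in another set `S'`, have no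
2-Selmer group for one of the `D` and one of the `D'` (projects PF of helper783 and TW of helper874, with
congruences of helper98 and helper79; the real conditions are needed here and can be carried to `M` because `M`
is totally real). The curve is `y ^ 2 = D-twist of f`, and `d = - D D'`. The restriction of scalars is `J ^ 2`
with the action of the permutation representation on the two square roots of `d`; sum and difference of the
coordinates map it to `J` and the twist of `J` by `d`, with kernel `J[2]`, so that the classes of 2-power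
order in `Ш` are the classes of the cocycles `(t, t)` with `t` in `H ^ 1 (M, J[2])`. This group consists of
the elements `u` of `M(θ)`, `f(θ) = 0`, of square norm modulo squares, and `(t, t)` is locally zero if and
only if `u` is locally a product of classes from the two Jacobians (`V/Dgl.lean`, `V/Kil.lean`).

Lower bound: there is no condition at the real places (helper57: `d` is negative and all zeros are real) and
at the primes dividing `d` (helper57: there `f` is `x` times an irreducible polynomial, and the two local
images are different); at the primes over 2 the points with `x = 0` and `x = 1` on the two curves give the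
classes `-θ` and `θ - 1`, which are independent by the choice of `f` modulo 8 (helper57, helper42). The theorem
of Dirichlet gives `2 ^ ((2 + k) [M : ℚ])` elements with even valuations outside the primes of degree `2 g` over
the primes dividing `d` which are locally products of these two at all primes over 2 (helper64, helper38).
Upper bound: an element is determined by its classes modulo the image of `J` at the primes over 2 (index at
most `2 ^ (2 g - 1)`, helper42), at the real places (`2 ^ g`, helper57) and at the primes dividing `d` (two,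
helper57), because at the other primes the two local images are equal (helper98, helper79, helper38) and `J`
has no 2-Selmer group over `M` (`V/One3.lean`, and helper98 for the pigeonhole principle).

The cohomology is that of continuous cocycles on the absolute Galois groups. Everything is in
`Pool.Agent.J4H37` (helper37) and in `Pool.Agent.J4H38`, `J4H42`, `J4H57`, `J4H64`, `J4H79`, `J4H98`.
-/

set_option autoImplicit false
set_option linter.all false

namespace Pool.Agent.Results.MP_a43263_nt.UniformNonzeroSha

open Polynomial Filter IsDedekindDomain NumberField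
open Pool.Agent.N874.Jac (Gal)
open Pool.Agent.J4H37 (Twist.Rep Twist.FactorsThrough Twist.Cochain Twist.Cocycle Twist.Coboundary
  Twist.power Twist.TrivialOver Twist.UniquelyTwoDivisible)
open scoped Classical

section defs

/-- `y ^ 2 = f(x)` is a minimal equation of a curve of genus `g` over `ℚ` with a rational Weierstrass
point, of height at most `B`. -/
structure IsCurve (g B : ℕ) (f : ℤ[X]) : Prop where
  monic : f.Monic
  degree : f.natDegree = 2 * g + 1
  trace : f.coeff (2 * g) = 0
  height : ∀ j ≤ 2 * g, |f.coeff j| ≤ (B : ℤ) ^ (2 * g + 1 - j)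
  smooth : (f.map (Int.castRingHom ℚ)).Separable
  minimal : ∀ p : ℕ, p.Prime → ¬ ∀ j ≤ 2 * g, (p : ℤ) ^ (2 * (2 * g + 1 - j)) ∣ f.coeff j

/-- The curves of genus `g` of height at most `B`. -/
def Curves (g B : ℕ) : Set ℤ[X] := {f | IsCurve g B f}

/-- `f` is irreducible modulo `p`. -/
def IrreducibleMod (f : ℤ[X]) (p : ℕ) : Prop := Irreducible (f.map (Int.castRingHom (ZMod p)))

/-- The prime `w` of `M` is unramified over `ℚ`: it contains an integer which is not in its square. -/
def Unramified {M : Type} [Field M] [NumberField M] (w : HeightOneSpectrum (𝓞 M)) : Prop :=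
  ∃ n : ℤ, (n : 𝓞 M) ∈ w.asIdeal ∧ (n : 𝓞 M) ∉ w.asIdeal ^ 2

/-- The prime `w` of `M` is of degree one: every integer of `M` is congruent to a rational integer
modulo `w`. -/
def DegreeOne {M : Type} [Field M] [NumberField M] (w : HeightOneSpectrum (𝓞 M)) : Prop :=
  ∀ y : 𝓞 M, ∃ n : ℤ, y - (n : 𝓞 M) ∈ w.asIdeal

/-- The primes dividing the natural number `N` split completely in `M`. -/
def SplitAt (M : Type) [Field M] [NumberField M] (N : ℕ) : Prop :=
  ∀ w : HeightOneSpectrum (𝓞 M), (N : 𝓞 M) ∈ w.asIdeal → Unramified w ∧ DegreeOne w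

/-- The primes dividing `N` split completely in `M`, and `f` is irreducible modulo all the primes which
are ramified in `M`. -/
structure Admissible (N : ℕ) (f : ℤ[X]) (M : Type) [Field M] [NumberField M] : Prop where
  split : SplitAt M N
  inert : ∀ (w : HeightOneSpectrum (𝓞 M)) (p : ℕ), p.Prime → (p : 𝓞 M) ∈ w.asIdeal →
    ¬ Unramified w → IrreducibleMod f p

/-- `f` as a polynomial over `M`. -/
noncomputable abbrev poly (M : Type) [Field M] (f : ℤ[X]) : M[X] := f.map (Int.castRingHom M)

/-- The class of `c` is zero over the completions of `K` at all finite places and over the real numbers,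
for all the embeddings of `K` in the real numbers. -/
def TrivialEverywhere {K : Type} [Field K] [NumberField K] (F : K[X]) {r : ℕ} (ρ : Twist.Rep K r)
    (c : Twist.Cochain F r) : Prop :=
  (∀ v : HeightOneSpectrum (𝓞 K), Twist.TrivialOver F ρ (v.adicCompletion K) c) ∧
    ∀ τ : K →+* ℝ, letI := τ.toAlgebra; Twist.TrivialOver F ρ ℝ c

/-- Let `J` be the Jacobian of `y ^ 2 = F(x)` over `K` and `A = J ⊗ ρ` the twist of `J ^ r` by `ρ`.
Multiplication by two is bijective on `A(K)`, and the 2-primary part of `Ш(A)` is killed by `n`. -/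
def TwoPartKilledBy (n : ℕ) {K : Type} [Field K] [NumberField K] (F : K[X]) {r : ℕ}
    (ρ : Twist.Rep K r) : Prop :=
  Twist.UniquelyTwoDivisible F ρ ∧ ∀ (c : Twist.Cochain F r) (m : ℕ), Twist.Cocycle F ρ c →
    TrivialEverywhere F ρ c → Twist.Coboundary F ρ (Twist.power F c (2 ^ m)) →
      Twist.Coboundary F ρ (Twist.power F c n)

/-- The class of `c` is in the 2-primary part of `Ш(A)`, `A = J ⊗ ρ`. -/
structure InShaTwo {K : Type} [Field K] [NumberField K] (F : K[X]) {r : ℕ} (ρ : Twist.Rep K r)
    (c : Twist.Cochain F r) : Prop where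
  cocycle : Twist.Cocycle F ρ c
  everywhere : TrivialEverywhere F ρ c
  power : ∃ m : ℕ, Twist.Coboundary F ρ (Twist.power F c (2 ^ m))

/-- The 2-primary part of `Ш(A)`, `A = J ⊗ ρ`: the classes of the cocycles modulo coboundaries. -/
def ShaTwo {K : Type} [Field K] [NumberField K] (F : K[X]) {r : ℕ} (ρ : Twist.Rep K r) : Type :=
  Quot fun c c' : {c : Twist.Cochain F r // InShaTwo F ρ c} =>
    Twist.Coboundary F ρ (fun σ => c.1 σ / c'.1 σ)

/-- The permutation representation of the absolute Galois group of `M` on the two square roots of the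
integer `d`, written as a homomorphism to the integral matrices of size two. The twist of `J ^ 2` by it
is the restriction of scalars of `J` from `M(√d)` to `M` (`J ^ 2` if `d` is a square in `M`). -/
noncomputable def squareRoots (M : Type) [Field M] [NumberField M] (d : ℤ) : Twist.Rep M 2 :=
  Pool.Agent.J4H37.V.permRep d

/-- The integral representation `ρ` of the absolute Galois group of `ℚ` is trivial on the automorphisms
which are trivial on `M` (for an embedding of `M`) and on the square roots of `d`: it is an integral
representation of the Galois group of `M(√d)`. -/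
def FactorsThroughSqrt {r : ℕ} (ρ : Twist.Rep ℚ r) (M : Type) [Field M] [NumberField M] (d : ℤ) :
    Prop :=
  ∃ ι : M →ₐ[ℚ] SeparableClosure ℚ, ∀ σ : Gal ℚ, (∀ x, σ (ι x) = ι x) →
    (∀ s : SeparableClosure ℚ, s ^ 2 = (d : SeparableClosure ℚ) → σ s = s) → ρ σ = 1

/-- The properties of the Jacobian `J` of `y ^ 2 = f(x)`, a curve of genus `g`, and of its twists with
respect to `M` and `d`. -/
structure Conclusion (g : ℕ) (f : ℤ[X]) (d : ℤ) (M : Type) [Field M] [NumberField M] : Prop where
  jacobian : Pool.Agent.N874.Jac.UniquelyTwoDivisible (poly M f) ∧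
    Pool.Agent.N874.Jac.ShaTwoTrivialReal (poly M f) (𝓞 M)
  twists : ∀ (r : ℕ) (ρ : Twist.Rep ℚ r), Twist.FactorsThrough ρ M → TwoPartKilledBy 1 (poly ℚ f) ρ
  killed : ∀ (r : ℕ) (ρ : Twist.Rep ℚ r), FactorsThroughSqrt ρ M d →
    TwoPartKilledBy 2 (poly ℚ f) ρ
  restriction : TwoPartKilledBy 2 (poly M f) (squareRoots M d)
  finite : Finite (ShaTwo (poly M f) (squareRoots M d))
  lower : 2 ^ ((2 + d.natAbs.primeFactors.card) * Module.finrank ℚ M) ≤
    Nat.card (ShaTwo (poly M f) (squareRoots M d))
  upper : Nat.card (ShaTwo (poly M f) (squareRoots M d)) ≤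
    2 ^ ((3 * g - 1 + d.natAbs.primeFactors.card) * Module.finrank ℚ M)

/-- This holds for all the totally real Galois extensions `M` of `ℚ` of 2-power degree in which the primes
dividing `N` split completely and in which only primes are ramified modulo which `f` is irreducible. -/
def Uniformly (g N : ℕ) (f : ℤ[X]) (d : ℤ) : Prop :=
  ∀ (M : Type) [Field M] [NumberField M] [IsGalois ℚ M] [IsTotallyReal M] (n : ℕ),
    Module.finrank ℚ M = 2 ^ n → Admissible N f M → Conclusion g f d M

/-- The curves of genus `g` and height at most `B` with the property of the theorem. -/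
def Good (M₀ : Type) [Field M₀] [NumberField M₀] (T N g B : ℕ) : Set ℤ[X] :=
  {f ∈ Curves g B | Irreducible (poly ℚ f) ∧ {x : ℝ | (poly ℝ f).eval x = 0}.ncard = 2 * g + 1 ∧
    Admissible N f M₀ ∧ (∀ p : ℕ, p.Prime → p ≤ T → IrreducibleMod f p) ∧
    ∃ d : ℤ, d < 0 ∧ Squarefree d ∧ d ∣ N ∧ Uniformly g N f d}

end defs

open Pool.Agent.J4H37.V in
theorem concl {g N : ℕ} (hg : 1 ≤ g) {f : (𝓞 ℚ)[X]} {D D' : ℕ} (H : DatR Q01 g N f D D')
    {G : ℤ[X]} (hG : zx G = f.scaleRoots (D : 𝓞 ℚ)) :
    Uniformly g N G (-((D : ℤ) * (D' : ℤ))) := by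
  intro M _ _ _ _ n hM hok
  have hok' : Pool.Agent.J4H37.U.MOk N (zx G) M :=
    mok_iff.2 ⟨fun w hw => ⟨(unr_iff w).2 (hok.split w hw).1, (deg1_iff w).2 (hok.split w hw).2⟩,
      fun w p hp hpw hu => hok.inert w p hp hpw fun h => hu ((unr_iff w).2 h)⟩
  obtain ⟨b1, b2⟩ := fin_all hg H.toDatQ hG M hM hok'
  obtain ⟨a1, a2, a3, -⟩ := fin_curve p_twi p_lk p_hk p_sq p_odd p_real p_exur hg H.toDatQ hG M hM
    hok'
  have hk : (-((D : ℤ) * (D' : ℤ))).natAbs = D * D' := by
    rw [Int.natAbs_neg, ← Nat.cast_mul, Int.natAbs_natCast]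
  obtain ⟨⟨c, c1, c2⟩, c3⟩ := fin_v hg H hG M hM hok'
  obtain ⟨e1, e2, e3⟩ := card_quot
    (fun c c' : {c : Twist.Cochain (poly M G) 2 //
        InShaTwo (poly M G) (squareRoots M (-((D : ℤ) * (D' : ℤ)))) c} =>
      Twist.Coboundary (poly M G) (squareRoots M (-((D : ℤ) * (D' : ℤ))))
        (fun σ => c.1 σ / c'.1 σ)) (cob_equiv.comap Subtype.val)
    ⟨fun i => ⟨c i, ⟨(c1 i).1, (c1 i).2.1, 1, by
      rw [pow_one]
      exact (c1 i).2.2⟩⟩, fun i j hij => c2 i j hij⟩
    (fun x => c3 (fun i => (x i).1) fun i => ⟨(x i).2.cocycle, (x i).2.everywhere, (x i).2.power⟩)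
  refine ⟨a1, fun r ρ hρ => ?_, fun r ρ hρ => b2 r ρ hρ, ⟨a2, fun c m hc hl hb => ?_⟩, e1, ?_, ?_⟩
  · obtain ⟨k1, k2⟩ := b1 r ρ hρ
    refine ⟨k1, fun c m hc hl hb => ?_⟩
    have e : Twist.power (poly ℚ G) c 1 = c := by
      funext σ
      exact pow_one _
    rw [e]
    exact k2 c m hc hl hb
  · exact a3 c m hc ((te_iff _ _ _).1 hl) hb
  · rw [hk]
    exact e2
  · rw [hk]
    exact e3

/-- Let `g ≥ 1`, `T` a natural number and `M₀` a number field in which 2 splits completely. There are
`N > 0`, not divisible by an odd prime up to `T`, all whose prime divisors split completely in `M₀`, and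
`c > 0` such that for all large `B` at least `c` times the number of all the curves of genus `g` over `ℚ` of
height at most `B` with a rational Weierstrass point have the following property. The polynomial `f` is
irreducible over `ℚ`, modulo the primes up to `T` and modulo the primes which are ramified in `M₀`, has
`2 g + 1` real zeros, and there is a negative squarefree divisor `d` of `N` such that for ALL totally real
Galois extensions `M` of `ℚ` of 2-power degree in which the primes dividing `N` split completely and in which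
only primes are ramified modulo which `f` is irreducible: the Jacobian `J` over `M` and all `J ⊗ ρ` over `ℚ`,
`ρ` an integral representation of the Galois group of `M`, have no 2-part; for all integral
representations `ρ` of the Galois group of `M(√d)` multiplication by two is bijective on `(J ⊗ ρ)(ℚ)` and
the 2-primary part of `Ш(J ⊗ ρ)` is killed by two; and for the restriction of scalars `A` of `J` from
`M(√d)` to `M` multiplication by two is bijective on `A(M)` and the 2-primary part of `Ш(A / M)` is killed
by two and finite, of order at least `2 ^ ((2 + k) [M : ℚ])` and at most `2 ^ ((3 g - 1 + k) [M : ℚ])`, where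
`k` is the number of the primes dividing `d`. For `g = 1` the bounds are equal. -/
theorem result (g : ℕ) (hg : 1 ≤ g) (M₀ : Type) [Field M₀] [NumberField M₀] (h2 : SplitAt M₀ 2)
    (T : ℕ) :
    (∀ B : ℕ, (Curves g B).Finite) ∧
    ∃ N : ℕ, 0 < N ∧ (∀ p : ℕ, p.Prime → p ∣ N → p = 2 ∨ T < p) ∧ SplitAt M₀ N ∧
      ∃ c : ℝ, 0 < c ∧ ∀ᶠ B : ℕ in atTop, 0 < (Curves g B).ncard ∧
        c * ((Curves g B).ncard : ℝ) ≤ ((Good M₀ T N g B).ncard : ℝ) := by
  have hsub : ∀ B, Pool.Agent.J4H37.V.zx '' Curves g B ⊆
      {f : (𝓞 ℚ)[X] | Pool.Agent.N783.PF.Ht g B f} := by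
    rintro B _ ⟨f, hf, rfl⟩
    exact Pool.Agent.J4H37.V.zx_ht.2 ⟨hf.monic, hf.degree, hf.trace, hf.height⟩
  have hinj : Function.Injective Pool.Agent.J4H37.V.zx := fun f f' h =>
    Pool.Agent.J4H37.V.zx_inj h
  obtain ⟨N, hN, hNT, hsp, c, hc, B₀, hB₀⟩ := Pool.Agent.J4H37.V.p_mainr g hg M₀
    (fun w hw => by
      obtain ⟨h3, h4⟩ := h2 w (by exact_mod_cast hw)
      exact ⟨(Pool.Agent.J4H37.V.unr_iff w).2 h3, (Pool.Agent.J4H37.V.deg1_iff w).2 h4⟩) T
  have hmono : ∀ B B' : ℕ, B ≤ B' → Curves g B ⊆ Curves g B' := by
    intro B B' hBB f hf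
    refine ⟨hf.monic, hf.degree, hf.trace, fun j hj => (hf.height j hj).trans ?_, hf.smooth,
      hf.minimal⟩
    gcongr
  have hfin : ∀ B, (Curves g B).Finite := by
    intro B
    have h3 : (Pool.Agent.J4H37.V.zx '' Curves g (max B B₀)).Finite :=
      (hB₀ (max B B₀) (le_max_right _ _)).1.subset (hsub _)
    exact (Set.Finite.of_finite_image h3 hinj.injOn).subset (hmono B _ (le_max_left _ _))
  refine ⟨hfin, N, hN, hNT, fun w hw => ?_, c, hc, ?_⟩
  · obtain ⟨h3, h4⟩ := hsp w hw
    exact ⟨(Pool.Agent.J4H37.V.unr_iff w).1 h3, (Pool.Agent.J4H37.V.deg1_iff w).1 h4⟩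
  filter_upwards [eventually_ge_atTop B₀] with B hB
  obtain ⟨hHt, hle⟩ := hB₀ B hB
  have hsub2 : {G : (𝓞 ℚ)[X] | Pool.Agent.N783.PF.Ht g B G ∧
      Irreducible (Pool.Agent.N783.PF.fF G) ∧ Pool.Agent.N783.PF.Min g G ∧
      Pool.Agent.J4H37.V.RR g G ∧ Pool.Agent.J4H37.U.MOk N G M₀ ∧
      (∀ (v : HeightOneSpectrum (𝓞 ℚ)) (p : ℕ), p.Prime → p ≤ T → (p : 𝓞 ℚ) ∈ v.asIdeal →
        Irreducible (Pool.Agent.N783.PF.rd v.asIdeal G)) ∧
      ∃ (f : (𝓞 ℚ)[X]) (D D' : ℕ), G = f.scaleRoots (D : 𝓞 ℚ) ∧
        Pool.Agent.J4H37.V.DatR Pool.Agent.J4H37.V.Q01 g N f D D'} ⊆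
      Pool.Agent.J4H37.V.zx '' Good M₀ T N g B := by
    rintro G' ⟨a1, a2, a3, a4, a5, a6, f, D, D', hG, H⟩
    obtain ⟨G, rfl⟩ := Pool.Agent.J4H37.V.zx_surj G'
    obtain ⟨c1, c2, c3, c4⟩ := Pool.Agent.J4H37.V.zx_ht.1 a1
    rw [Pool.Agent.J4H37.V.fF_zx] at a2
    obtain ⟨d1, d2⟩ := Pool.Agent.J4H37.V.mok_iff.1 a5
    refine ⟨G, ⟨⟨c1, c2, c3, c4, a2.separable, Pool.Agent.J4H37.V.zx_min a3⟩, a2, ?_,
      ⟨fun w hw => ⟨(Pool.Agent.J4H37.V.unr_iff w).1 (d1 w hw).1,
        (Pool.Agent.J4H37.V.deg1_iff w).1 (d1 w hw).2⟩, fun w p hp hpw hu => d2 w p hp hpw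
          fun h => hu ((Pool.Agent.J4H37.V.unr_iff w).1 h)⟩, fun p hp hpT => ?_,
      -((D : ℤ) * (D' : ℤ)), ?_, ?_, ?_, concl hg H hG⟩, rfl⟩
    · have h5 := a4 (algebraMap ℚ ℝ)
      have h6 : (Pool.Agent.N783.PF.fF (Pool.Agent.J4H37.V.zx G)).map (algebraMap ℚ ℝ) =
          poly ℝ G := by
        rw [Pool.Agent.J4H37.V.fF_zx, Polynomial.map_map]
        exact congrArg (fun φ => G.map φ) (RingHom.ext_int _ _)
      rw [h6] at h5
      have h7 : poly ℝ G ≠ 0 := (c1.map _).ne_zero
      have h8 : {x : ℝ | (poly ℝ G).eval x = 0} = ((poly ℝ G).roots.toFinset : Set ℝ) := by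
        ext x
        rw [Finset.mem_coe, Multiset.mem_toFinset, mem_roots h7]
        rfl
      rw [h8, Set.ncard_coe_finset]
      exact h5
    · obtain ⟨h5, h6⟩ := Pool.Agent.J4H37.V.sp_prime hp
      refine (Pool.Agent.J4H37.V.zx_sub_ideal (v := ⟨Pool.Agent.N783.PF.sp ℚ p, h5, h6⟩) hp
        ?_).1 (a6 ⟨Pool.Agent.N783.PF.sp ℚ p, h5, h6⟩ p hp hpT ?_)
      · exact Ideal.mem_span_singleton_self _
      · exact Ideal.mem_span_singleton_self _
    · have h5 : D ≠ 0 := by
        rintro rfl
        have := H.d8
        omega
      have h6 : D' ≠ 0 := by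
        rintro rfl
        have := H.d8'
        omega
      have h7 : (0 : ℤ) < (D : ℤ) * (D' : ℤ) := by positivity
      omega
    · rw [← Int.squarefree_natAbs, Int.natAbs_neg]
      have h5 : ((D : ℤ) * (D' : ℤ)).natAbs = D * D' := by
        rw [← Nat.cast_mul, Int.natAbs_natCast]
      rw [h5]
      exact H.sqd
    · rw [neg_dvd]
      exact_mod_cast H.dvd
  have hfin2 : (Good M₀ T N g B).Finite := (hfin B).subset fun f hf => hf.1
  have h1 := Set.ncard_le_ncard hsub2 (hfin2.image _)
  rw [Set.ncard_image_of_injective _ hinj] at h1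
  have h2 : c * ({f : (𝓞 ℚ)[X] | Pool.Agent.N783.PF.Ht g B f}.ncard : ℝ) ≤
      ((Good M₀ T N g B).ncard : ℝ) := hle.trans (by exact_mod_cast h1)
  have hne : 0 < {f : (𝓞 ℚ)[X] | Pool.Agent.N783.PF.Ht g B f}.ncard := by
    rw [Set.ncard_pos hHt]
    refine ⟨X ^ (2 * g + 1), monic_X_pow _, natDegree_X_pow _, ?_, fun j hj σ => ?_⟩
    · rw [coeff_X_pow, if_neg (by omega)]
    · have e : ((0 : 𝓞 ℚ) : ℚ) = 0 := by simp
      rw [coeff_X_pow, if_neg (by omega), e, map_zero, norm_zero]
      positivity
  have h3 : 0 < ((Good M₀ T N g B).ncard : ℝ) := by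
    refine lt_of_lt_of_le ?_ h2
    exact mul_pos hc (by exact_mod_cast hne)
  refine ⟨?_, ?_⟩
  · have h4 := Set.ncard_le_ncard (s := Good M₀ T N g B) (t := Curves g B) (fun f hf => hf.1)
      (hfin B)
    have h5 : 0 < (Good M₀ T N g B).ncard := by exact_mod_cast h3
    omega
  · refine le_trans ?_ h2
    have h4 := Set.ncard_le_ncard (hsub B) hHt
    rw [Set.ncard_image_of_injective _ hinj] at h4
    exact mul_le_mul_of_nonneg_left (by exact_mod_cast h4) hc.le

end Pool.Agent.Results.MP_a43263_nt.UniformNonzeroSha
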