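import Mathlib
import Pool.Agent.J4H38.Av

/-!
# Tate–Shafarevich groups of a positive proportion of the abelian varieties
# `Res_{K/ℚ} ∏_{v ∈ V} E_{a^v}` over `ℚ`, of arbitrarily large dimension

`K = ℚ(√-3)` is the field of the third roots of unity and `E_D : y² + D y = x³`.  Let `V` be a finite set
of nonzero vectors in `𝔽_3^N`, none of which is minus another one.  For a tuple `a = (a_1, ..., a_N)` of
elements of `𝓞 K` let `A_a` be the abelian variety

  `A_a = Res_{K/ℚ} ∏_{v ∈ V} E_{a^v}`,  `a^v = ∏ a_k^{v_k}`, `0 ≤ v_k ≤ 2`,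

over `ℚ`, of dimension `2 #V`.  It has complex multiplication, and it depends on `N` independent
parameters.  We have `A_a(ℚ) = ⨁ E_{a^v}(K)`, `Ш(A_a / ℚ) = ⨁ Ш(E_{a^v} / K)` and
`L(A_a / ℚ, s) = ∏ L(E_{a^v} / K, s)`.

The family: the `a_i` are squarefree and congruent to third roots of unity modulo `3`, and no `a^v`,
`v ∈ V`, is a unit times a cube or in the exceptional class (`1` modulo `3`, with norm `1` modulo `9`).

* For all `a` in the family the function `L(A_a / ℚ, s)` is entire; if `E_{a^v}(K)` is finite and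
  `Ш(E_{a^v} / K)[3^∞] = 0` for all `v ∈ V`, that is if `A_a(ℚ)` is finite and `Ш(A_a / ℚ)[3^∞] = 0`,
  then `L(A_a / ℚ, 1) ≠ 0`.
* This happens for the proportion `p ^ #V` of the members of the family, where
  `p = ∏_{i ≥ 0} (1 - 3^{-(2 i + 1)}) = 0.6390...`, and, if the family is not empty, for a positive
  proportion of ALL the tuples `a`, ordered by the maximum of the norms.
* The `#V` events are asymptotically independent: for every subset `𝒯` of `V` the proportion of the `a`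
  for which the assertion holds for all the `v ∈ 𝒯` is `p ^ #𝒯`; and this remains true under all the
  conditions on the classes of the `a_i` modulo `3` and of their norms modulo `9`.

The family is not empty for example if all the `v ∈ V` have `v_1 = 1`, so that `#V` may be any number up
to `3 ^ (N - 1)`, and for `N = 2` if `V` is a set of representatives of the nonzero vectors up to the
sign.

Relation to the conjecture (not formalized): by the theorem of Rubin (1987) for elliptic curves over `K`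
with complex multiplication by `K`, `L(E_D / K, 1) ≠ 0` implies that `Ш(E_D / K)` is finite.  So for these
`a` the group `Ш(A_a / ℚ)` is finite, of order prime to `3`.

The case of one curve was known (the library); for several curves the proof needs the joint distribution
of the kernels of several Laplacian matrices over `𝔽_3` built from the same cubic residue symbols
(`Pool/Agent/J4H38`: factorial moments of the joint kernel, boxes, large sieve).
-/

set_option autoImplicit false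

namespace Pool.Agent.Results.MP_a43263_nt.WeilRestrictionsOfCubicTwists

open NumberField IsDedekindDomain WeierstrassCurve
open Pool.Agent.TH841.NF.D (Sha)
open scoped Classical

variable {K : Type} [Field K] [NumberField K] {N : ℕ}

/-- The curve `E_D : y² + D y = x³`. -/
def curve (D : K) : WeierstrassCurve K := ⟨0, 0, D, 0, 0⟩

/-- `a^v = ∏ a k ^ v k`, `0 ≤ v k ≤ 2`. -/
def power (a : Fin N → 𝓞 K) (v : Fin N → ZMod 3) : 𝓞 K := ∏ k, a k ^ (v k).val

/-- `L` is entire and equal to the `L`-function of `∏_{v ∈ V} E_{a^v}` over `K`, which is that of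
`A_a = Res_{K/ℚ} ∏_{v ∈ V} E_{a^v}` over `ℚ`, for `Re s > 3 / 2`.  `A w v` is the multiset of the
eigenvalues of the Frobenius at the place `w` on the invariants of inertia of `H^1(E_{a^v})`.  At the
places `w` not dividing `3`: if `a^v = R z³` with `R` prime to `w` (then `E_{a^v}` is isomorphic to `E_R`,
which has good reduction) then `A w v = {β, conj β}`, where `β conj β = N(w)` and `y² + R y = x³` has
`N(w) - (β + conj β)` affine points over the residue field; if there are no such `R` and `z` then `A w v`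
is empty.  At the places dividing `3` all the `A w v` are empty. -/
def IsLFunction (V : Finset (Fin N → ZMod 3)) (a : Fin N → 𝓞 K) (L : ℂ → ℂ) : Prop :=
  Differentiable ℂ L ∧
  ∃ A : HeightOneSpectrum (𝓞 K) → (Fin N → ZMod 3) → Multiset ℂ,
    (∀ w, ∀ v ∈ V, (3 : 𝓞 K) ∉ w.asIdeal → ∀ R z : 𝓞 K, R ∉ w.asIdeal → power a v = R * z ^ 3 →
      ∃ β : ℂ, β * (starRingEnd ℂ) β = Ideal.absNorm w.asIdeal ∧
        (Nat.card {P : (𝓞 K ⧸ w.asIdeal) × (𝓞 K ⧸ w.asIdeal) //
          P.2 ^ 2 + Ideal.Quotient.mk w.asIdeal R * P.2 = P.1 ^ 3} : ℂ) =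
            Ideal.absNorm w.asIdeal - (β + (starRingEnd ℂ) β) ∧
        A w v = {β, (starRingEnd ℂ) β}) ∧
    (∀ w, ∀ v ∈ V, ((3 : 𝓞 K) ∈ w.asIdeal ∨
      ¬ ∃ R z : 𝓞 K, R ∉ w.asIdeal ∧ power a v = R * z ^ 3) → A w v = 0) ∧
    ∀ s : ℂ, 3 / 2 < s.re →
      HasProd (fun w : HeightOneSpectrum (𝓞 K) => ∏ v ∈ V, ((A w v).map
          (fun α => (1 - α * (Ideal.absNorm w.asIdeal : ℂ) ^ (-s))⁻¹)).prod) (L s)

/-- The exceptional class: `D` is `1` modulo `3` and its norm is `1` modulo `9`. -/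
def Exceptional (D : 𝓞 K) : Prop := (3 : 𝓞 K) ∣ D - 1 ∧ (9 : ℤ) ∣ Algebra.norm ℤ D - 1

/-- The `a i` are squarefree and congruent to third roots of unity modulo `3`, and no `a^v`, `v ∈ V`, is
exceptional or a unit times a cube. -/
def InFamily (V : Finset (Fin N → ZMod 3)) (a : Fin N → 𝓞 K) : Prop :=
  (∀ i, Squarefree (a i) ∧ ∃ ω : 𝓞 K, ω ^ 3 = 1 ∧ (3 : 𝓞 K) ∣ a i - ω) ∧
  ∀ v ∈ V, ¬ Exceptional (power a v) ∧ ¬ ∃ u z : 𝓞 K, IsUnit u ∧ power a v = u * z ^ 3

/-- `P a` depends only on the `a i` modulo `3` and on their norms modulo `9`. -/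
def IsClassCondition (P : (Fin N → 𝓞 K) → Prop) : Prop :=
  ∀ a b : Fin N → 𝓞 K, (∀ i, (3 : 𝓞 K) ∣ a i - b i ∧
    (9 : ℤ) ∣ Algebra.norm ℤ (a i) - Algebra.norm ℤ (b i)) → P a → P b

/-- `E_D(K)` is finite and the `3`-primary part of `Ш(E_D / K)` is trivial. -/
def FiniteAndTrivial (D : 𝓞 K) : Prop :=
  Finite (curve (D : K)).toAffine.Point ∧ ∀ (n : ℕ) (x : Sha (curve (D : K))), 3 ^ n • x = 0 → x = 0

/-- For `A_a = Res_{K/ℚ} ∏_{v ∈ V} E_{a^v}`: the group `A_a(ℚ) = ⨁ E_{a^v}(K)` is finite, the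
`3`-primary part of `Ш(A_a / ℚ) = ⨁ Ш(E_{a^v} / K)` is trivial, and `L(A_a / ℚ, s)` is entire and not
zero at `s = 1`. -/
def Good (V : Finset (Fin N → ZMod 3)) (a : Fin N → 𝓞 K) : Prop :=
  (∀ v ∈ V, FiniteAndTrivial (power a v)) ∧ ∃ L : ℂ → ℂ, IsLFunction V a L ∧ L 1 ≠ 0

theorem result (K : Type) [Field K] [NumberField K] [IsCyclotomicExtension {3} ℚ K]
    (N : ℕ) (V : Finset (Fin N → ZMod 3)) (hV : ∀ v ∈ V, v ≠ 0 ∧ -v ∉ V) :
    (∀ P : (Fin N → 𝓞 K) → Prop, IsClassCondition P → (∃ a, InFamily V a ∧ P a) →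
      (∃ C : ℝ, 0 < C ∧ ∃ X₀ : ℕ, ∀ X : ℕ, X₀ ≤ X →
        C * ({a : Fin N → 𝓞 K | ∀ i, Algebra.norm ℤ (a i) ≤ X}.ncard : ℝ) ≤
          ({a : Fin N → 𝓞 K | (∀ i, Algebra.norm ℤ (a i) ≤ X) ∧ InFamily V a ∧ P a ∧
            Good V a}.ncard : ℝ)) ∧
      ∀ 𝒯 ⊆ V, Filter.Tendsto (fun X : ℕ =>
        ({a : Fin N → 𝓞 K | (∀ i, Algebra.norm ℤ (a i) ≤ X) ∧ InFamily V a ∧ P a ∧
          ∀ v ∈ 𝒯, FiniteAndTrivial (power a v)}.ncard : ℝ) /
        ({a : Fin N → 𝓞 K | (∀ i, Algebra.norm ℤ (a i) ≤ X) ∧ InFamily V a ∧ P a}.ncard : ℝ))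
        Filter.atTop (nhds ((∏' i : ℕ, (1 - (1 / 3 : ℝ) ^ (2 * i + 1))) ^ 𝒯.card))) ∧
    (0.639 : ℝ) < ∏' i : ℕ, (1 - (1 / 3 : ℝ) ^ (2 * i + 1)) ∧
    ∀ a : Fin N → 𝓞 K, InFamily V a → (∃ L : ℂ → ℂ, IsLFunction V a L) ∧
      ((∀ v ∈ V, FiniteAndTrivial (power a v)) → Good V a) := by
  obtain ⟨h1, h2, h3, h0⟩ := Pool.Agent.J4H38.Av.finalV K N V hV
  have h4 : ∀ a : Fin N → 𝓞 K, InFamily V a → (∃ L : ℂ → ℂ, IsLFunction V a L) ∧
      ((∀ v ∈ V, FiniteAndTrivial (power a v)) → Good V a) := by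
    intro a ha
    have h5 : ∀ v : Fin N → ZMod 3, ∃ L : ℂ → ℂ, v ∈ V →
        Pool.Agent.J4H38.Av.IsL1 (power a v) L ∧ (FiniteAndTrivial (power a v) → L 1 ≠ 0) := by
      intro v
      by_cases hv : v ∈ V
      · obtain ⟨L, hL, hL'⟩ := h3 a ha v hv
        exact ⟨L, fun _ => ⟨hL, hL'⟩⟩
      · exact ⟨0, fun h => absurd h hv⟩
    choose L hL using h5
    have h6 : IsLFunction V a fun s => ∏ v ∈ V, L v s :=
      Pool.Agent.J4H38.Av.lv fun v hv => (hL v hv).1
    refine ⟨⟨_, h6⟩, fun ht => ⟨ht, _, h6, ?_⟩⟩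
    exact Finset.prod_ne_zero_iff.2 fun v hv => (hL v hv).2 (ht v hv)
  refine ⟨fun P hP hne => ⟨?_, fun 𝒯 h𝒯 => h1 𝒯 h𝒯 P hP hne⟩,
    Pool.Agent.N883.FF.hc9.2.2.2.1, h4⟩
  obtain ⟨C, hC, X₀, h⟩ := h2 P hP hne
  refine ⟨C, hC, max X₀ 1, fun X hX => (h X ((le_max_left _ _).trans hX)).trans ?_⟩
  refine Nat.cast_le.2 (Set.ncard_le_ncard ?_ ((h0 X ((le_max_right _ _).trans hX)).subset
    fun a ha => ha.1))
  rintro a ⟨k1, k2, k3, k4⟩
  exact ⟨k1, k2, k3, (h4 a k2).2 k4⟩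

end Pool.Agent.Results.MP_a43263_nt.WeilRestrictionsOfCubicTwists
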